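import Pool.Agent.KSF.Src
import Pool.Agent.GQ.FAll
import Pool.Agent.KTX.IVP
import Pool.Agent.KTX.RealIV

/-!
# Line S, final assembly (hypotheses: homotopy invariance for rings, the theorem on surfaces)

MP_e17fa799_al (architect helper33).
-/

set_option autoImplicit false

noncomputable section

namespace Pool.Agent.KSF

open CategoryTheory AlgebraicGeometry Pool.Agent.KTX Pool.Agent.KTH Pool.Agent.KPR
  Pool.Agent.KQG

theorem surf_of (h : St_HOMK) (hF : St_F) (p n : ℕ) (hp : p.Prime) : SurfN p n := by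
  obtain ⟨L, e, z, -⟩ := all_THY.{1} (kInt h)
  exact hF L (fun n X => (e n X).trans (kxEquiv n X).symm) z (GQ.all_HDim1 h) p n hp

/-- all clauses of the final statement of line S -/
theorem all_of (h : St_HOMK) (hF : St_F) : (∀ p n : ℕ, DomN p n) ∧ (∀ p n : ℕ, RingF p n) ∧
    (∀ p n : ℕ, FermF p n) ∧ (∀ p : ℕ, p.Prime → DomFin p) ∧
    (∀ p n : ℕ, p.Prime → SurfN p n) :=
  ⟨fun p n => thm_N (hThy h) (GQ.all_HDim1 h) p n, fun p n => ringF_of (real_ring h p n),
    fun p n => fermF_of (real_fermat h p n), all_S.{0}.2.1, surf_of h hF⟩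

end Pool.Agent.KSF
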