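import Pool.Agent.KSF.St

/-!
# KSF, module C: extensions of function fields
-/

set_option autoImplicit false

namespace Pool.Agent.KSF

/-- the localisation of a domain inside a field -/
theorem C_loc {R L : Type} [CommRing R] [Field L] (g : R →+* L) (hg : Function.Injective g)
    (r : R) (hr : r ≠ 0) : ∃ j : Localization.Away r →+* L, Function.Injective j ∧
      ∀ y : L, y ∈ j.range ↔ ∃ (x : R) (m : ℕ), y * g r ^ m = g x := by
  have h0 : g r ≠ 0 := fun h => hr (hg (by rw [h, map_zero]))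
  have hu : IsUnit (g r) := IsUnit.mk0 _ h0
  let j : Localization.Away r →+* L := IsLocalization.Away.lift r hu
  have hj : ∀ x : R, j (algebraMap R (Localization.Away r) x) = g x := fun x =>
    IsLocalization.Away.lift_eq r hu x
  refine ⟨j, ?_, fun y => ⟨?_, ?_⟩⟩
  · rw [injective_iff_map_eq_zero]
    intro s hs
    obtain ⟨n, x, hx⟩ := IsLocalization.Away.surj r s
    have h1 : g x = 0 := by
      rw [← hj x, ← hx, map_mul, hs, zero_mul]
    have h2 : x = 0 := hg (by rw [h1, map_zero])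
    rw [h2, map_zero] at hx
    have h3 : IsUnit (algebraMap R (Localization.Away r) r ^ n) :=
      (IsLocalization.Away.algebraMap_isUnit r).pow n
    exact (h3.mul_left_eq_zero).1 hx
  · rintro ⟨s, rfl⟩
    obtain ⟨n, x, hx⟩ := IsLocalization.Away.surj r s
    refine ⟨x, n, ?_⟩
    rw [← hj x, ← hx, map_mul, map_pow, hj]
  · rintro ⟨x, m, hx⟩
    have h1 : y = g x * (g r ^ m)⁻¹ := by
      rw [← hx, mul_assoc, mul_inv_cancel₀ (pow_ne_zero m h0), mul_one]
    rw [h1]
    have h2 : g r ∈ j.range := ⟨_, hj r⟩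
    have h3 : (g r)⁻¹ ∈ j.range := by
      refine ⟨IsLocalization.Away.invSelf r, ?_⟩
      have h4 : g r * j (IsLocalization.Away.invSelf r) = 1 := by
        rw [← hj r, ← map_mul, IsLocalization.Away.mul_invSelf, map_one]
      exact eq_inv_of_mul_eq_one_right h4
    rw [← inv_pow]
    exact j.range.mul_mem ⟨_, hj x⟩ (j.range.pow_mem h3 m)

/-- the image of an algebra of finite type over `ZMod p` -/
theorem C_gen {p : ℕ} {A F : Type} [CommRing A] [Algebra (ZMod p) A] [Field F] (ψ : A →+* F)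
    (s : Finset A) (hs : Algebra.adjoin (ZMod p) (s : Set A) = ⊤) (R : Subring F)
    (h : ∀ x ∈ s, ψ x ∈ R) (x : A) : ψ x ∈ R := by
  have hx : x ∈ Algebra.adjoin (ZMod p) (s : Set A) := by
    rw [hs]
    exact Algebra.mem_top
  induction hx using Algebra.adjoin_induction with
  | mem x hx => exact h x hx
  | algebraMap r =>
    obtain ⟨n, rfl⟩ := ZMod.intCast_surjective r
    rw [map_intCast, map_intCast]
    exact intCast_mem R n
  | add x y _ _ hx hy =>
    rw [map_add]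
    exact R.add_mem hx hy
  | mul x y _ _ hx hy =>
    rw [map_mul]
    exact R.mul_mem hx hy

/-- the stabilizer of a submodule -/
def C_stab {F : Type} [Field F] {R : Subring F} (M : Submodule R F) : Subring F where
  carrier := {y | ∀ m ∈ M, y * m ∈ M}
  mul_mem' {x y} hx hy m hm := by
    rw [mul_assoc]
    exact hx _ (hy m hm)
  one_mem' m hm := by
    rw [one_mul]
    exact hm
  add_mem' {x y} hx hy m hm := by
    rw [add_mul]
    exact M.add_mem (hx m hm) (hy m hm)
  zero_mem' m hm := by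
    rw [zero_mul]
    exact M.zero_mem
  neg_mem' {x} hx m hm := by
    rw [neg_mul]
    exact M.neg_mem (hx m hm)

theorem C_stab_mem {F : Type} [Field F] {R : Subring F} {J : Type} (e : J → F) (y : F)
    (h : ∀ i, y * e i ∈ Submodule.span R (Set.range e)) :
    y ∈ C_stab (Submodule.span R (Set.range e)) := by
  intro m hm
  induction hm using Submodule.span_induction with
  | mem x hx =>
    obtain ⟨i, rfl⟩ := hx
    exact h i
  | zero =>
    rw [mul_zero]
    exact Submodule.zero_mem _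
  | add x y _ _ hx hy =>
    rw [mul_add]
    exact Submodule.add_mem _ hx hy
  | smul a x _ hx =>
    rw [mul_smul_comm]
    exact Submodule.smul_mem _ a hx

/-- a localisation inside a larger one, with a basis -/
theorem C_basis {P Q F J : Type} [CommRing P] [CommRing Q] [Field F] [Fintype J] (ja : P →+* F)
    (jb : Q →+* F) (ha : Function.Injective ja) (hb : Function.Injective jb)
    (hab : ja.range ≤ jb.range) (e : J → F) (he : ∀ i, e i ∈ jb.range)
    (hli : ∀ s : J → P, ∑ i, ja (s i) * e i = 0 → ∀ i, ja (s i) = 0)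
    (hsp : ∀ y ∈ jb.range, y ∈ Submodule.span ja.range (Set.range e)) :
    ∃ _ : Algebra P Q, Nonempty (Module.Basis J P Q) := by
  classical
  let eb : Q ≃+* jb.range := RingEquiv.ofBijective jb.rangeRestrict
    ⟨fun x y h => hb (congrArg Subtype.val h), jb.rangeRestrict_surjective⟩
  have heb : ∀ y : jb.range, jb (eb.symm y) = y := fun y => by
    have h1 : eb (eb.symm y) = y := eb.apply_symm_apply y
    exact congrArg Subtype.val h1
  let θ : P →+* Q := (eb.symm : jb.range →+* Q).comp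
    ((Subring.inclusion hab).comp ja.rangeRestrict)
  have hθ : ∀ s, jb (θ s) = ja s := fun s => heb _
  choose f hf using he
  refine ⟨θ.toAlgebra, ?_⟩
  let _ : Algebra P Q := θ.toAlgebra
  refine ⟨Module.Basis.mk (v := f) ?_ ?_⟩
  · rw [Fintype.linearIndependent_iff]
    intro s hs i
    apply ha
    rw [map_zero]
    refine hli s ?_ i
    have h1 : jb (∑ i, s i • f i) = 0 := by rw [hs, map_zero]
    rw [map_sum] at h1
    rw [← h1]
    refine Finset.sum_congr rfl fun i _ => ?_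
    have h2 : s i • f i = θ (s i) * f i := rfl
    rw [h2, map_mul, hθ, hf]
  · intro q _
    have h1 := hsp (jb q) ⟨q, rfl⟩
    rw [← Set.image_univ] at h1
    have h3 : ∀ y : F, y ∈ Submodule.span ja.range (e '' Set.univ) →
        ∃ q' ∈ Submodule.span P (Set.range f), jb q' = y := by
      intro y hy
      induction hy using Submodule.span_induction with
      | mem x hx =>
        obtain ⟨i, -, rfl⟩ := hx
        exact ⟨f i, Submodule.subset_span ⟨i, rfl⟩, hf i⟩
      | zero => exact ⟨0, Submodule.zero_mem _, map_zero _⟩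
      | add x y _ _ hx hy =>
        obtain ⟨x', hx', rfl⟩ := hx
        obtain ⟨y', hy', rfl⟩ := hy
        exact ⟨x' + y', Submodule.add_mem _ hx' hy', map_add _ _ _⟩
      | smul a x _ hx =>
        obtain ⟨x', hx', rfl⟩ := hx
        obtain ⟨-, s, rfl⟩ := a
        refine ⟨s • x', Submodule.smul_mem _ s hx', ?_⟩
        have h2 : s • x' = θ s * x' := rfl
        rw [h2, map_mul, hθ]
        rfl
    obtain ⟨q', hq', h4⟩ := h3 _ h1
    rw [← hb h4]
    exact hq'

/-- **C.** -/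
theorem thm_C : St_C := by
  classical
  intro p _ A B _ _ _ _ _ _ _ _ K F _ _ _ _ _ _ φ hd
  let _ : Algebra K F := φ.toAlgebra
  have hfd : FiniteDimensional K F := Module.finite_of_finrank_pos (Nat.pos_of_ne_zero hd)
  let e : Module.Basis (Fin (dg φ)) K F := Module.finBasis K F
  have hsm : ∀ (c : K) (x : F), c • x = φ c * x := fun _ _ => rfl
  obtain ⟨sA, hsA⟩ := (Algebra.FiniteType.out : (⊤ : Subalgebra (ZMod p) A).FG)
  obtain ⟨sB, hsB⟩ := (Algebra.FiniteType.out : (⊤ : Subalgebra (ZMod p) B).FG)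
  let ψ : A →+* F := φ.comp (algebraMap A K)
  let ι : B →+* F := algebraMap B F
  have hι : Function.Injective ι := IsFractionRing.injective B F
  have hκ : Function.Injective (algebraMap A K) := IsFractionRing.injective A K
  have hψ : Function.Injective ψ := φ.injective.comp hκ
  -- the denominator `b₀`
  obtain ⟨⟨b₀, hb₀'⟩, hb₀⟩ := IsLocalization.exist_integer_multiples_of_finite
    (nonZeroDivisors B) (S := F) (Sum.elim (fun x : sA => ψ x) (fun i => e i))
  have hb0 : b₀ ≠ 0 := nonZeroDivisors.ne_zero hb₀'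
  have hιb : ι b₀ ≠ 0 := fun h => hb0 (hι (by rw [h, map_zero]))
  have h1 : ∀ x ∈ sA, ∃ z, ι z = ι b₀ * ψ x := fun x hx => by
    obtain ⟨z, hz⟩ := hb₀ (Sum.inl ⟨x, hx⟩)
    refine ⟨z, hz.trans ?_⟩
    exact Algebra.smul_def _ _
  have h2 : ∀ i, ∃ z, ι z = ι b₀ * e i := fun i => by
    obtain ⟨z, hz⟩ := hb₀ (Sum.inr i)
    refine ⟨z, hz.trans ?_⟩
    exact Algebra.smul_def _ _
  -- the denominator `a`
  obtain ⟨⟨a, haA'⟩, haA⟩ := IsLocalization.exist_integer_multiples_of_finite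
    (nonZeroDivisors A) (S := K) (Sum.elim (fun x : sB × Fin (dg φ) × Fin (dg φ) =>
      e.repr (ι x.1 * e x.2.1) x.2.2) (Sum.elim (fun x : Fin (dg φ) × Fin (dg φ) =>
      e.repr ((ι b₀)⁻¹ * e x.1) x.2) (fun i => e.repr 1 i)))
  have ha0 : a ≠ 0 := nonZeroDivisors.ne_zero haA'
  have h3 : ∀ x ∈ sB, ∀ i k, ∃ z, algebraMap A K z = algebraMap A K a * e.repr (ι x * e i) k :=
    fun x hx i k => by
    obtain ⟨z, hz⟩ := haA (Sum.inl (⟨x, hx⟩, i, k))
    refine ⟨z, hz.trans ?_⟩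
    exact Algebra.smul_def _ _
  have h4 : ∀ i k, ∃ z, algebraMap A K z = algebraMap A K a * e.repr ((ι b₀)⁻¹ * e i) k :=
    fun i k => by
    obtain ⟨z, hz⟩ := haA (Sum.inr (Sum.inl (i, k)))
    refine ⟨z, hz.trans ?_⟩
    exact Algebra.smul_def _ _
  have h5 : ∀ k, ∃ z, algebraMap A K z = algebraMap A K a * e.repr 1 k := fun k => by
    obtain ⟨z, hz⟩ := haA (Sum.inr (Sum.inr k))
    refine ⟨z, hz.trans ?_⟩
    exact Algebra.smul_def _ _
  refine ⟨a, ha0, fun a' ha' hdvd => ?_⟩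
  obtain ⟨t, ht⟩ := hdvd
  obtain ⟨ja, hja, hja'⟩ := C_loc (algebraMap A K) hκ a' ha'
  have hψa : ψ a' ≠ 0 := fun h => ha' (hψ (by rw [h, map_zero]))
  let RA : Subring F := (φ.comp ja).range
  have hRA : ∀ c ∈ ja.range, φ c ∈ RA := by
    rintro c ⟨s, rfl⟩
    exact ⟨s, rfl⟩
  have hRAc : ∀ c : K, (∃ z, algebraMap A K z = algebraMap A K a * c) → φ c ∈ RA := by
    rintro c ⟨z, hz⟩
    refine hRA c ((hja' c).2 ⟨t * z, 1, ?_⟩)
    rw [ht, map_mul, map_mul, hz, pow_one]
    ring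
  have hRAi : (ψ a')⁻¹ ∈ RA := by
    have h6 : (ψ a')⁻¹ = φ (algebraMap A K a')⁻¹ := (map_inv₀ φ _).symm
    rw [h6]
    refine hRA _ ((hja' _).2 ⟨1, 1, ?_⟩)
    rw [pow_one, map_one, inv_mul_cancel₀]
    exact fun h => ha' (hκ (by rw [h, map_zero]))
  -- `ψ a' = u / b₀ ^ l`
  obtain ⟨j0, hj0, hj0'⟩ := C_loc ι hι b₀ hb0
  have h7 : ψ a' ∈ j0.range := by
    refine C_gen (p := p) ψ sA hsA j0.range (fun x hx => ?_) a'
    obtain ⟨z, hz⟩ := h1 x hx
    refine (hj0' _).2 ⟨z, 1, ?_⟩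
    rw [pow_one, hz, mul_comm]
  obtain ⟨u, l, hu⟩ := (hj0' _).1 h7
  have hu0 : u ≠ 0 := by
    rintro rfl
    rw [map_zero] at hu
    exact mul_ne_zero hψa (pow_ne_zero l hιb) hu
  have hιu : ι u ≠ 0 := fun h => hu0 (hι (by rw [h, map_zero]))
  have hb : b₀ * u ≠ 0 := mul_ne_zero hb0 hu0
  obtain ⟨jb, hjb, hjb'⟩ := C_loc ι hι (b₀ * u) hb
  have r1 : ∀ x, ι x ∈ jb.range := fun x => (hjb' _).2 ⟨x, 0, by rw [pow_zero, mul_one]⟩
  have r2 : (ι b₀)⁻¹ ∈ jb.range := (hjb' _).2 ⟨u, 1, by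
    rw [pow_one, map_mul, ← mul_assoc, inv_mul_cancel₀ hιb, one_mul]⟩
  have r0 : ∀ (x : F) (z : B), ι z = ι b₀ * x → x ∈ jb.range := fun x z hz => by
    have h8 : x = (ι b₀)⁻¹ * ι z := by
      rw [hz, ← mul_assoc, inv_mul_cancel₀ hιb, one_mul]
    rw [h8]
    exact jb.range.mul_mem r2 (r1 z)
  have r3 : ∀ x, ψ x ∈ jb.range := fun x => C_gen (p := p) ψ sA hsA jb.range (fun x hx => by
    obtain ⟨z, hz⟩ := h1 x hx
    exact r0 _ z hz) x
  have r4 : (ψ a')⁻¹ ∈ jb.range := (hjb' _).2 ⟨b₀ ^ (l + 1), 1, by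
    rw [pow_one, map_mul, ← hu, map_pow, pow_succ]
    field_simp⟩
  have r5 : ∀ i, e i ∈ jb.range := fun i => by
    obtain ⟨z, hz⟩ := h2 i
    exact r0 _ z hz
  have hab : (φ.comp ja).range ≤ jb.range := by
    rintro y ⟨s, rfl⟩
    obtain ⟨x, m, hx⟩ := (hja' (ja s)).1 ⟨s, rfl⟩
    have h8 : (φ.comp ja) s = ψ x * ((ψ a')⁻¹) ^ m := by
      have h9 : φ (ja s) * ψ a' ^ m = ψ x := by
        have h10 := congrArg φ hx
        rw [map_mul, map_pow] at h10
        exact h10
      rw [← h9, inv_pow, mul_assoc, mul_inv_cancel₀ (pow_ne_zero m hψa), mul_one]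
      rfl
    rw [h8]
    exact jb.range.mul_mem (r3 x) (jb.range.pow_mem r4 m)
  -- the span of the basis
  have hM : ∀ y : F, (∀ k, ∃ z, algebraMap A K z = algebraMap A K a * e.repr y k) →
      y ∈ Submodule.span RA (Set.range e) := by
    intro y hy
    rw [← e.sum_repr y]
    refine Submodule.sum_mem _ fun k _ => ?_
    have h8 : e.repr y k • e k = (⟨φ (e.repr y k), hRAc _ (hy k)⟩ : RA) • e k := rfl
    rw [h8]
    exact Submodule.smul_mem _ _ (Submodule.subset_span ⟨k, rfl⟩)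
  have s1 : ∀ x, ι x ∈ C_stab (Submodule.span RA (Set.range e)) := fun x =>
    C_gen (p := p) ι sB hsB _ (fun x hx => C_stab_mem e _ fun i => hM _ (h3 x hx i)) x
  have s2 : (ι b₀)⁻¹ ∈ C_stab (Submodule.span RA (Set.range e)) :=
    C_stab_mem e _ fun i => hM _ (h4 i)
  have s3 : (ψ a')⁻¹ ∈ C_stab (Submodule.span RA (Set.range e)) := fun m hm => by
    have h8 : (ψ a')⁻¹ * m = (⟨(ψ a')⁻¹, hRAi⟩ : RA) • m := rfl
    rw [h8]
    exact Submodule.smul_mem _ _ hm
  have s4 : ∀ y ∈ jb.range, y ∈ Submodule.span RA (Set.range e) := by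
    intro y hy
    obtain ⟨x, m, hx⟩ := (hjb' y).1 hy
    have h8 : y = ι x * ((ι b₀)⁻¹ * ((ψ a')⁻¹ * ((ι b₀)⁻¹) ^ l)) ^ m := by
      have h9 : ι (b₀ * u) * ((ι b₀)⁻¹ * ((ψ a')⁻¹ * ((ι b₀)⁻¹) ^ l)) = 1 := by
        have h10 : ι (b₀ * u) * ((ι b₀)⁻¹ * ((ψ a')⁻¹ * ((ι b₀)⁻¹) ^ l)) =
            (ι b₀ * (ι b₀)⁻¹) * (ψ a' * (ψ a')⁻¹) * (ι b₀ * (ι b₀)⁻¹) ^ l := by
          rw [map_mul, ← hu, mul_pow]
          ring
        rw [h10, mul_inv_cancel₀ hιb, mul_inv_cancel₀ hψa, one_pow, one_mul, one_mul]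
      rw [← hx, mul_assoc, ← mul_pow, h9, one_pow, mul_one]
    have h9 : y ∈ C_stab (Submodule.span RA (Set.range e)) := by
      rw [h8]
      exact Subring.mul_mem _ (s1 x) (Subring.pow_mem _ (Subring.mul_mem _ s2
        (Subring.mul_mem _ s3 (Subring.pow_mem _ s2 l))) m)
    have h10 := h9 1 (hM 1 h5)
    rw [mul_one] at h10
    exact h10
  obtain ⟨alg, hbas⟩ := C_basis (φ.comp ja) jb (φ.injective.comp hja) hjb hab (fun i => e i) r5
    (fun s hs i => by
      have h8 : ∑ i, ja (s i) • e i = 0 := hs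
      have h9 := Fintype.linearIndependent_iff.1 e.linearIndependent (fun i => ja (s i)) h8 i
      change φ (ja (s i)) = 0
      rw [h9, map_zero]) s4
  exact ⟨b₀ * u, alg, hb, hbas⟩

end Pool.Agent.KSF
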