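import Pool.Agent.KSF.St
import Pool.Agent.KTH.C1
import Pool.Agent.KTH.GG

/-!
# KSF E: free algebras with degrees of greatest common divisor dividing `N`

MP_e17fa799_al (architect helper33). For a free algebra `B_j` of rank `d_j` the composition
`push (pull x)` is `d_j x`. If every common divisor of the `d_j` divides `N`, then `N x` is in the sum of
the images of the push-forwards (Bezout), and `thm_GG` (4) gives the claim.
-/

set_option autoImplicit false

namespace Pool.Agent.KSF

open CategoryTheory AlgebraicGeometry TopologicalSpace Pool.Agent.KTX Pool.Agent.KTH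
  Pool.Agent.KPR

universe u

theorem thm_E : St_E.{u} := by
  intro T M N hNM A _ _ J _ B _ _ d hb hd hG
  have hJ : Fintype J := Fintype.ofFinite J
  have hNA : IsNoetherian (Spec (CommRingCat.of A)) := by
    have h1 : IsNoetherianRing (CommRingCat.of A) := (inferInstance : IsNoetherianRing A)
    infer_instance
  have b : ∀ j, Module.Basis (Fin (d j)) A (B j) := fun j => (hb j).some
  have hfin : ∀ j, IsFinite (Spec.map (CommRingCat.ofHom (algebraMap A (B j)))) := by
    intro j
    have h1 : Module.Finite A (B j) := Module.Finite.of_basis (b j)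
    exact (IsFinite.SpecMap_iff _).2 (RingHom.finite_algebraMap.2 h1)
  have hflat : ∀ j, Flat (Spec.map (CommRingCat.ofHom (algebraMap A (B j)))) := by
    intro j
    have h1 : Module.Free A (B j) := Module.Free.of_basis (b j)
    have h2 : Module.Flat A (B j) := inferInstance
    exact (Flat.SpecMap_iff).2 (RingHom.flat_algebraMap_iff.2 h2)
  obtain ⟨a, ha⟩ := c1_bezout d N hd
  obtain ⟨k, hk⟩ := hNM
  have hfree : ∀ (j : J) (x : T.T (Spec (CommRingCat.of A))),
      T.push (Spec.map (CommRingCat.ofHom (algebraMap A (B j))))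
        (T.pull (Spec.map (CommRingCat.ofHom (algebraMap A (B j)))) x) = d j • x := by
    intro j x
    exact T.free A (B j) (d j) (b j) (Spec.map (CommRingCat.ofHom (algebraMap A (B j)))) (𝟙 _)
      (𝟙 _) (IsPullback.of_vert_isIso ⟨by simp⟩) x
  refine thm_GG.2.2.2.1 M 1 (T.T (Spec (CommRingCat.of A))) J
    (fun j => T.T (Spec (CommRingCat.of (B j))))
    (fun j => T.push (Spec.map (CommRingCat.ofHom (algebraMap A (B j))))) (fun x => ?_) hG
  have h1 : N • x = ∑ j, a j • T.push (Spec.map (CommRingCat.ofHom (algebraMap A (B j))))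
        (T.pull (Spec.map (CommRingCat.ofHom (algebraMap A (B j)))) x) := by
    simp_rw [hfree]
    rw [← natCast_zsmul, ha, Finset.sum_smul]
    refine Finset.sum_congr rfl fun j _ => ?_
    rw [mul_smul, natCast_zsmul]
  have h2 : N • x ∈ ⨆ j, (T.push (Spec.map (CommRingCat.ofHom (algebraMap A (B j))))).range := by
    rw [h1]
    refine sum_mem fun j _ => zsmul_mem ?_ _
    exact (le_iSup (fun j => (T.push (Spec.map (CommRingCat.ofHom
      (algebraMap A (B j))))).range) j) ⟨_, rfl⟩
  rw [pow_one, hk, mul_comm, mul_smul]
  exact nsmul_mem h2 k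

end Pool.Agent.KSF
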