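import Pool.Agent.KSF.St
import Pool.Agent.KTH.All

/-!
# KSF, module F: the theorem (helper90)
-/

set_option autoImplicit false

namespace Pool.Agent.KSF

open CategoryTheory AlgebraicGeometry TopologicalSpace Pool.Agent.KTX Pool.Agent.KTH
  Pool.Agent.KPR Topology

/-! ### arithmetic -/

/-- a set of natural numbers has a finite subset with the same common divisors -/
private theorem F_gcd (S : Set ℕ) (N : ℕ) (hN : N ≠ 0) (h : ∀ d : ℕ, (∀ m ∈ S, d ∣ m) → d ∣ N) :
    ∃ F : Finset ℕ, (∀ m ∈ F, m ∈ S ∧ m ≠ 0) ∧ ∀ c : ℕ, (∀ m ∈ F, c ∣ m) → c ∣ N := by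
  classical
  have h0 : ∃ m ∈ S, m ≠ 0 := by
    by_contra hc
    push Not at hc
    exact hN (Nat.eq_zero_of_zero_dvd (h 0 fun m hm => by rw [hc m hm]))
  have h1 : ∃ g : ℕ, g ≠ 0 ∧ ∃ F : Finset ℕ, (∀ m ∈ F, m ∈ S) ∧ F.gcd id = g := by
    obtain ⟨m, hm, hm0⟩ := h0
    refine ⟨m, hm0, {m}, fun k hk => ?_, ?_⟩
    · rw [Finset.mem_singleton] at hk
      rw [hk]
      exact hm
    · rw [Finset.gcd_singleton]
      exact normalize_eq m
  obtain ⟨hg0, F, hF, hg⟩ := Nat.find_spec h1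
  have hmin := fun k hk => Nat.find_min h1 (m := k) hk
  obtain ⟨g, hgg⟩ : ∃ g, g = Nat.find h1 := ⟨_, rfl⟩
  rw [← hgg] at hg0 hg
  have hmin' : ∀ k : ℕ, k < g → ¬ (k ≠ 0 ∧ ∃ F : Finset ℕ, (∀ m ∈ F, m ∈ S) ∧ F.gcd id = k) :=
    fun k hk => hmin k (hgg ▸ hk)
  have h2 : ∀ m ∈ S, g ∣ m := by
    intro m hm
    have h3 : (insert m F).gcd id = Nat.gcd m g := by
      rw [Finset.gcd_insert, hg]
      rfl
    have h4 : Nat.gcd m g ∣ g := Nat.gcd_dvd_right m g
    have h5 : Nat.gcd m g ≠ 0 := fun h6 => hg0 (Nat.eq_zero_of_gcd_eq_zero_right h6)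
    have h6 : ¬ Nat.gcd m g < g := fun h7 => hmin' _ h7 ⟨h5, insert m F, fun k hk => by
      rcases Finset.mem_insert.1 hk with rfl | hk
      · exact hm
      · exact hF k hk, h3⟩
    have h7 : Nat.gcd m g = g :=
      le_antisymm (Nat.le_of_dvd (Nat.pos_of_ne_zero hg0) h4) (not_lt.1 h6)
    rw [← h7]
    exact Nat.gcd_dvd_left m g
  refine ⟨F.filter fun m => m ≠ 0, fun m hm => ⟨hF m (Finset.mem_filter.1 hm).1,
    (Finset.mem_filter.1 hm).2⟩, fun c hc => ?_⟩
  refine dvd_trans ?_ (h g h2)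
  rw [← hg]
  refine Finset.dvd_gcd fun m hm => ?_
  by_cases h8 : m = 0
  · rw [h8]
    exact dvd_zero c
  · exact hc m (Finset.mem_filter.2 ⟨hm, h8⟩)

private theorem F_two (d : WithBot ℕ∞) (h : d ≤ 2) (h' : ¬ d ≤ 1) : d = 2 := by
  induction d using WithBot.recBotCoe with
  | bot => exact absurd bot_le h'
  | coe d =>
    have h1 : d ≤ 2 := WithBot.coe_le_coe.1 h
    have h2 : ¬ d ≤ 1 := fun h3 => h' (WithBot.coe_le_coe.2 h3)
    have h3 : d = 2 := by
      refine le_antisymm h1 ?_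
      rw [not_le] at h2
      exact Order.add_one_le_of_lt h2
    rw [h3]
    rfl

/-! ### morphisms to the prime field -/

private theorem F_ft (p : ℕ) {Z : Scheme.{0}} (h : FTZ Z) (f : Z ⟶ Spec (CommRingCat.of (ZMod p))) :
    LocallyOfFiniteType f ∧ QuasiCompact f := by
  have h1 : LocallyOfFiniteType (Limits.terminal.from Z) := h.1
  have h2 : QuasiCompact (Limits.terminal.from Z) := h.2
  have e : f ≫ Limits.terminal.from _ = Limits.terminal.from Z := Subsingleton.elim _ _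
  refine ⟨?_, ?_⟩
  · have : LocallyOfFiniteType (f ≫ Limits.terminal.from _) := by
      rw [e]
      exact h1
    exact locallyOfFiniteType_of_comp f (Limits.terminal.from _)
  · have : CompactSpace Z := QuasiCompact.compactSpace_of_compactSpace (Limits.terminal.from Z)
    infer_instance

private theorem F_noeth (p : ℕ) [Fact p.Prime] {Z : Scheme.{0}} (f : Z ⟶ Spec (CommRingCat.of (ZMod p)))
    [LocallyOfFiniteType f] [QuasiCompact f] : IsNoetherian Z :=
  haveI h1 : IsLocallyNoetherian Z := LocallyOfFiniteType.isLocallyNoetherian f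
  haveI h2 : CompactSpace Z := QuasiCompact.compactSpace_of_compactSpace f
  { h1, h2 with }

/-! ### the groups in dimension at most one -/

private theorem F_H1 (L : LThy.{1}) (ε : ∀ (n : ℕ) (X : Scheme.{0}), (L.th n).T X ≃+ KX n X)
    (hneg : ∀ (n : ℕ) (X : Scheme.{0}) (x : (L.th (Int.negSucc n)).T X), x = 0) (hD : HDim1)
    (p : ℕ) (hp : p.Prime) : H1 L p := by
  intro X f _ _ hX n
  have : Fact p.Prime := ⟨hp⟩
  rcases n with n | n
  · have h1 := hD p X f hX n
    exact AddGroup.fg_of_surjective (f := (ε n X).symm.toAddMonoidHom) (ε n X).symm.surjective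
  · have : Subsingleton ((L.th (Int.negSucc n)).T X) :=
      ⟨fun a b => (hneg n X a).trans (hneg n X b).symm⟩
    infer_instance

/-- one source -/
private theorem F_one (hC : St_C) (hZ : St_Z.{1}) (hS : St_Src) (L : LThy.{1})
    (ε : ∀ (n : ℕ) (X : Scheme.{0}), (L.th n).T X ≃+ KX n X) (hD : HDim1)
    (p : ℕ) [Fact p.Prime] (h1 : H1 L p) (n N : ℕ) (A : Type) [CommRing A] [IsDomain A]
    [Algebra (ZMod p) A] [Algebra.FiniteType (ZMod p) A] (K : Type) [Field K] [Algebra A K]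
    [IsFractionRing A K] (Z : Scheme.{0}) (z : Z) (hz : SrcPt p n Z z)
    (φ : K →+* Z.residueField z) (hφ : dg φ ≠ 0) :
    ∃ a : A, a ≠ 0 ∧ ∀ a' : A, a' ≠ 0 → a ∣ a' →
      ∃ (B : Type) (_ : CommRing B) (_ : Algebra (Localization.Away a') B),
        Nonempty (Module.Basis (Fin (dg φ)) (Localization.Away a') B) ∧
        GdG (p * N) ((L.th n).T (Spec (CommRingCat.of B))) := by
  obtain ⟨hsrc, hft, hdim, hcd⟩ := hz
  obtain ⟨-, hg, ⟨ρ⟩⟩ := hS (ofSTh (L.th n)) n (fun X => ε n X) hD p Z hsrc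
  obtain ⟨i1, i2⟩ := F_ft p hft ρ
  have hg' : GdG (p * N) ((L.th n).T Z) := thm_GG.2.2.2.2.1 p (p * N) _ (Dvd.intro _ rfl) hg
  obtain ⟨B, j1, j2, j3, j4, j5, j6, hB⟩ := hZ L p h1 (p * N) n Z ρ hdim hg' z hcd
  obtain ⟨a, ha, h⟩ := hC p A B K (Z.residueField z) φ hφ
  refine ⟨a, ha, fun a' ha' hd => ?_⟩
  obtain ⟨b, k1, hb, hbas⟩ := h a' ha' hd
  exact ⟨Localization.Away b, inferInstance, k1, hbas, hB b hb⟩

theorem thm_F (hC : St_C) (hE : St_E.{1}) (hX : St_X) (hZ : St_Z.{1}) (hN : St_N) (hS : St_Src) :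
    St_F := by
  classical
  intro L ε hneg hD p n hp X π hft hdim N hcond
  have : Fact p.Prime := ⟨hp⟩
  rcases eq_or_ne N 0 with rfl | hN0
  · refine ⟨⊥, ⟨∅, by simp⟩, 1, fun x => ?_⟩
    rw [Nat.mul_zero, pow_one, zero_smul]
    exact AddSubgroup.zero_mem _
  have h1 : H1 L p := F_H1 L ε hneg hD p hp
  obtain ⟨i1, i2⟩ := F_ft p hft π
  have hXn : IsNoetherian X := F_noeth p π
  obtain ⟨s1, s2, s3⟩ := scls_thy (ofSTh (L.th n)) (p * N)
  refine gdG_iso (ε n X) (hN X (fun W => IsNoetherian W → GdG (p * N) ((L.th n).T W)) s1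
    (fun Z' Z _ i _ hs h => (s3 Z' Z i hs).1 h) (fun Z' Z W _ i j _ _ hr hz hw => s2 Z' Z W i j hr hz hw) ?_
    inferInstance)
  intro C i hi hCi O hO
  have hCn : IsNoetherian C := noeth_closed i
  have hCX : topologicalKrullDim C ≤ topologicalKrullDim X :=
    i.isClosedEmbedding.isInducing.topologicalKrullDim_le
  by_cases hC1 : topologicalKrullDim C ≤ 1
  · refine ⟨O.toScheme, O.ι, inferInstance, ?_, ?_, fun hOn => ?_⟩
    · rw [Scheme.Opens.range_ι]
    · rw [Scheme.Opens.range_ι]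
      exact hO
    · have h2 : topologicalKrullDim O.toScheme ≤ 1 :=
        (O.ι.isOpenEmbedding.isInducing.topologicalKrullDim_le).trans hC1
      have : QuasiCompact (O.ι ≫ i ≫ π) := inferInstance
      exact gdG_fg (h1 O.toScheme (O.ι ≫ i ≫ π) h2 n)
  · have hC2 : topologicalKrullDim C = 2 := F_two _ (hCX.trans hdim) hC1
    obtain ⟨x, A, a1, a2, a3, a4, a5, a6, hr, hj⟩ := hX p X π C i O hO
    have hcd : cdim x = 2 := by
      unfold cdim
      rw [← hr, ← hC2]
      exact (IsHomeomorph.topologicalKrullDim_eq _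
        (i.isClosedEmbedding.isEmbedding.toHomeomorph.isHomeomorph)).symm
    obtain ⟨F, hF, hFg⟩ := F_gcd {m | ∃ (Z : Scheme.{0}) (z : Z) (_ : SrcPt p n Z z)
      (φ : X.residueField x →+* Z.residueField z), m = dg φ} N hN0 (fun d hd =>
        hcond x hcd d fun Z z hz φ => hd _ ⟨Z, z, hz, φ, rfl⟩)
    have hone : ∀ j : F, ∃ a : A, a ≠ 0 ∧ ∀ a' : A, a' ≠ 0 → a ∣ a' →
        ∃ (B : Type) (_ : CommRing B) (_ : Algebra (Localization.Away a') B),
          Nonempty (Module.Basis (Fin j.1) (Localization.Away a') B) ∧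
          GdG (p * N) ((L.th n).T (Spec (CommRingCat.of B))) := by
      rintro ⟨m, hm⟩
      obtain ⟨⟨Z, z, hz, φ, rfl⟩, hm0⟩ := hF m hm
      exact F_one hC hZ hS L ε hD p h1 n N A (X.residueField x) Z z hz φ hm0
    choose a ha h using hone
    have hprod : (∏ j, a j) ≠ 0 := Finset.prod_ne_zero_iff.2 fun j _ => ha j
    have h' := fun j => h j (∏ j, a j) hprod (Finset.dvd_prod_of_mem a (Finset.mem_univ j))
    choose B b1 b2 hbas hgood using h'
    obtain ⟨j, j1, j2, j3⟩ := hj (∏ j, a j) hprod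
    refine ⟨_, j, j1, j2, j3, fun _ => ?_⟩
    have : IsNoetherianRing A := Algebra.FiniteType.isNoetherianRing (ZMod p) A
    have : IsNoetherianRing (Localization.Away (∏ j, a j)) :=
      IsLocalization.isNoetherianRing (Submonoid.powers (∏ j, a j)) _ inferInstance
    exact hE (ofSTh (L.th n)) (p * N) N (Dvd.intro_left _ rfl) (Localization.Away (∏ j, a j)) F B
      (fun j => j.1) hbas (fun c hc => hFg c fun m hm => hc ⟨m, hm⟩) hgood

end Pool.Agent.KSF
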