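import Pool.Agent.KSF.St

/-!
# KSF, module N: noetherian induction, generic version (helper80)
-/

set_option autoImplicit false
set_option linter.style.haveILetI false

noncomputable section

namespace Pool.Agent.KSF

open CategoryTheory AlgebraicGeometry TopologicalSpace
open Pool.Agent.KIN (h2_noeth)

/-- the reduced closed subscheme is reduced -/
private theorem N_red {Y : Scheme.{0}} (C : Closeds Y) :
    IsReduced (Scheme.IdealSheafData.vanishingIdeal C).subscheme := by
  have h1 : ∀ U : Y.affineOpens,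
      _root_.IsReduced (Γ(Y, U.1) ⧸ (Scheme.IdealSheafData.vanishingIdeal C).ideal U) := by
    intro U
    rw [← Ideal.isRadical_iff_quotient_reduced, Scheme.IdealSheafData.vanishingIdeal_ideal]
    exact PrimeSpectrum.isRadical_vanishingIdeal _
  have h2 : ∀ U : Y.affineOpens,
      IsReduced (Spec (CommRingCat.of
        (Γ(Y, U.1) ⧸ (Scheme.IdealSheafData.vanishingIdeal C).ideal U))) := by
    intro U
    have := h1 U
    infer_instance
  have h3 : ∀ U, IsReduced
      ((Scheme.IdealSheafData.vanishingIdeal C).subschemeCover.openCover.X U) := fun U => h2 U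
  exact IsReduced.of_openCover _
    (Scheme.IdealSheafData.vanishingIdeal C).subschemeCover.openCover

private theorem N_range {Y : Scheme.{0}} (C : Closeds Y) :
    Set.range (Scheme.IdealSheafData.vanishingIdeal C).subschemeι = (C : Set Y) := by
  rw [Scheme.IdealSheafData.range_subschemeι, Scheme.IdealSheafData.coe_support_vanishingIdeal]

/-- an integral closed subscheme of a nonempty noetherian scheme which contains a nonempty open
subset -/
private theorem N_comp (Z : Scheme.{0}) [IsNoetherian Z] [Nonempty Z] :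
    ∃ (C : Scheme.{0}) (c : C ⟶ Z) (U : Z.Opens), IsClosedImmersion c ∧ IsIntegral C ∧
      (U : Set Z).Nonempty ∧ (U : Set Z) ⊆ Set.range c := by
  obtain ⟨z⟩ := (inferInstance : Nonempty Z)
  have hK : irreducibleComponent z ∈ irreducibleComponents Z :=
    irreducibleComponent_mem_irreducibleComponents z
  obtain ⟨U, hU, hne, hsub⟩ :=
    NoetherianSpace.exists_isOpen_nonempty_subset_irreducibleComponent _ hK
  let K : Closeds Z := ⟨irreducibleComponent z, isClosed_irreducibleComponent⟩
  let I := Scheme.IdealSheafData.vanishingIdeal K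
  have hr : Set.range I.subschemeι = irreducibleComponent z := N_range K
  haveI : IsReduced I.subscheme := N_red K
  haveI : IrreducibleSpace I.subscheme := by
    have h1 : IsIrreducible (Set.range I.subschemeι) := by
      rw [hr]
      exact isIrreducible_irreducibleComponent
    have h2 : IsIrreducible (Set.univ : Set I.subscheme) := by
      refine ⟨?_, ?_⟩
      · obtain ⟨_, ⟨x, rfl⟩⟩ := h1.1
        exact ⟨x, trivial⟩
      · intro u v hu hv hun hvn
        obtain ⟨u', hu', rfl⟩ := I.subschemeι.isClosedEmbedding.isInducing.isOpen_iff.1 hu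
        obtain ⟨v', hv', rfl⟩ := I.subschemeι.isClosedEmbedding.isInducing.isOpen_iff.1 hv
        obtain ⟨x, -, hx⟩ := hun
        obtain ⟨y, -, hy⟩ := hvn
        obtain ⟨_, ⟨w, rfl⟩, hw⟩ := h1.2 u' v' hu' hv' ⟨_, ⟨x, rfl⟩, hx⟩ ⟨_, ⟨y, rfl⟩, hy⟩
        exact ⟨w, trivial, hw⟩
    exact (irreducibleSpace_def _).2 h2
  haveI : IsIntegral I.subscheme := isIntegral_of_irreducibleSpace_of_isReduced _
  exact ⟨I.subscheme, I.subschemeι, ⟨U, hU⟩, inferInstance, inferInstance, hne,
    by rw [hr]; exact hsub⟩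

/-- the open subset of `Z` obtained from an open subscheme of `C` -/
private theorem N_open {Z C V : Scheme.{0}} (c : C ⟶ Z) (j : V ⟶ C) [IsClosedImmersion c]
    [IsOpenImmersion j] (U : Z.Opens) (hU : (U : Set Z) ⊆ Set.range c)
    (hj : Set.range j ⊆ c ⁻¹' (U : Set Z)) :
    ∃ (W : Z.Opens) (k : V ⟶ W.toScheme), IsClosedImmersion k ∧ Function.Surjective k ∧
      (W : Set Z) = c '' Set.range j := by
  have hcl : IsClosed (c '' (Set.range j)ᶜ) :=
    c.isClosedEmbedding.isClosedMap _ j.isOpenEmbedding.isOpen_range.isClosed_compl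
  let W : Z.Opens := U ⊓ ⟨(c '' (Set.range j)ᶜ)ᶜ, hcl.isOpen_compl⟩
  have hW : (W : Set Z) = c '' Set.range j := by
    ext y
    constructor
    · rintro ⟨h1, h2⟩
      obtain ⟨x, rfl⟩ := hU h1
      by_contra h3
      refine h2 ⟨x, ?_, rfl⟩
      intro h4
      exact h3 ⟨x, h4, rfl⟩
    · rintro ⟨x, hx, rfl⟩
      refine ⟨hj hx, ?_⟩
      rintro ⟨x', h1, h2⟩
      have h3 := c.isClosedEmbedding.injective h2
      rw [h3] at h1
      exact h1 hx
  have hpre : c ⁻¹' (W : Set Z) = Set.range j := by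
    rw [hW, Set.preimage_image_eq _ c.isClosedEmbedding.injective]
  let e : V ≅ (c ⁻¹ᵁ W).toScheme := IsOpenImmersion.isoOfRangeEq j (c ⁻¹ᵁ W).ι (by
    rw [Scheme.Opens.range_ι]
    exact hpre.symm)
  refine ⟨W, e.hom ≫ (c ∣_ W), inferInstance, ?_, hW⟩
  intro y
  have h1 : W.ι y ∈ (W : Set Z) := by
    have h5 := Set.mem_range_self (f := W.ι) y
    rw [Scheme.Opens.range_ι] at h5
    exact h5
  rw [hW] at h1
  obtain ⟨_, ⟨v, rfl⟩, hv⟩ := h1
  refine ⟨v, ?_⟩
  apply W.ι.isOpenEmbedding.injective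
  rw [← Scheme.Hom.comp_apply]
  have h2 : (e.hom ≫ (c ∣_ W)) ≫ W.ι = j ≫ c := by
    rw [Category.assoc, morphismRestrict_ι, ← Category.assoc,
      IsOpenImmersion.isoOfRangeEq_hom_fac]
  rw [h2, Scheme.Hom.comp_apply, hv]

theorem thm_N : St_N := by
  intro X _ P h0 h1 h2 h3
  have key : ∀ (C : Closeds X) (Z : Scheme.{0}) (i : Z ⟶ X) [IsClosedImmersion i],
      Set.range i = (C : Set X) → P Z := by
    intro C
    induction C using WellFoundedLT.induction with
    | ind C ih =>
    intro Z i _ hC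
    haveI hZ : IsNoetherian Z := h2_noeth i
    rcases isEmpty_or_nonempty Z with hem | hne
    · exact h0 Z hem
    obtain ⟨K, c, U, hc, hK, hUne, hU⟩ := N_comp Z
    have hO : ((c ⁻¹ᵁ U : K.Opens) : Set K).Nonempty := by
      obtain ⟨u, hu⟩ := hUne
      obtain ⟨x, rfl⟩ := hU hu
      exact ⟨x, hu⟩
    obtain ⟨V, j, hj, hsub, hjne, hV⟩ := h3 K (c ≫ i) (c ⁻¹ᵁ U) hO
    obtain ⟨W, k, hk, hks, hW⟩ := N_open c j U hU hsub
    haveI : IsNoetherian W.toScheme := h2_noeth W.ι
    have hPW : P W.toScheme := h1 V W.toScheme k hks hV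
    obtain ⟨_, ⟨v, rfl⟩⟩ := hjne
    have hzW : c (j v) ∈ (W : Set Z) := by
      rw [hW]
      exact ⟨_, ⟨v, rfl⟩, rfl⟩
    let C0 : Closeds Z := ⟨(W : Set Z)ᶜ, W.isOpen.isClosed_compl⟩
    let I : Z.IdealSheafData := Scheme.IdealSheafData.vanishingIdeal C0
    let i' : I.subscheme ⟶ Z := I.subschemeι
    have hi' : Set.range i' = (W : Set Z)ᶜ := N_range C0
    have hij : Set.range i' = (Set.range W.ι)ᶜ := by
      rw [hi', Scheme.Opens.range_ι]
    let C' : Closeds X := ⟨Set.range (i' ≫ i), (i' ≫ i).isClosedEmbedding.isClosed_range⟩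
    have hlt : C' < C := by
      refine lt_of_le_of_ne ?_ ?_
      · rintro _ ⟨x, rfl⟩
        rw [Scheme.Hom.comp_apply]
        change i (i' x) ∈ (C : Set X)
        rw [← hC]
        exact ⟨_, rfl⟩
      · intro he
        have h4 : i (c (j v)) ∈ (C' : Set X) := by
          rw [he, ← hC]
          exact ⟨_, rfl⟩
        obtain ⟨x, hx⟩ := h4
        rw [Scheme.Hom.comp_apply] at hx
        have h5 := i.isClosedEmbedding.injective hx
        have h6 : c (j v) ∈ Set.range i' := ⟨x, h5⟩
        rw [hi'] at h6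
        exact h6 hzW
    exact h2 I.subscheme Z W.toScheme i' W.ι hij (ih C' hlt I.subscheme (i' ≫ i) rfl) hPW
  exact key ⊤ X (𝟙 X) (by simp)

end Pool.Agent.KSF
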