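import Pool.Agent.KSF.St

/-!
# KSF, module X: affine models of integral closed subschemes (helper84)
-/

set_option autoImplicit false

namespace Pool.Agent.KSF

open CategoryTheory AlgebraicGeometry TopologicalSpace

/-- the residue field of the image of the generic point under a closed immersion -/
private theorem X_equiv {X C : Scheme.{0}} (i : C ⟶ X) [IsClosedImmersion i] [IsIntegral C] :
    Nonempty (C.functionField ≃+* X.residueField (i (genericPoint C))) := by
  have h1 : Function.Bijective (C.residue (genericPoint C)) := by
    refine ⟨?_, C.residue_surjective _⟩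
    exact (C.residue (genericPoint C)).hom.injective
  have h2 : Function.Bijective (i.residueFieldMap (genericPoint C)) := by
    refine ⟨(i.residueFieldMap (genericPoint C)).hom.injective, ?_⟩
    have h3 : Function.Surjective (i.stalkMap (genericPoint C)) :=
      SurjectiveOnStalks.stalkMap_surjective (f := i) _
    have h5 : ∀ s, i.residueFieldMap (genericPoint C) (X.residue (i (genericPoint C)) s) =
        C.residue (genericPoint C) (i.stalkMap (genericPoint C) s) := by
      intro s
      have h6 := congrArg (fun f => (CommRingCat.Hom.hom f) s)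
        (Scheme.residue_residueFieldMap i (genericPoint C))
      exact h6
    intro y
    obtain ⟨t, ht⟩ := C.residue_surjective _ y
    obtain ⟨s, hs⟩ := h3 t
    exact ⟨X.residue _ s, by rw [h5, hs, ht]⟩
  exact ⟨(RingEquiv.ofBijective (C.residue (genericPoint C)).hom h1).trans
    (RingEquiv.ofBijective (i.residueFieldMap (genericPoint C)).hom h2).symm⟩

/-- **X** -/
theorem thm_X : St_X := by
  intro p _ X π _ C i _ _ O hO
  obtain ⟨y, hy⟩ := hO
  obtain ⟨U, hU, hyU, hUO⟩ := exists_isAffineOpen_mem_and_subset (x := y) (U := O) hy
  haveI : Nonempty U := ⟨⟨y, hyU⟩⟩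
  obtain ⟨e⟩ := X_equiv i
  haveI hfr : IsFractionRing Γ(C, U) C.functionField :=
    functionField_isFractionRing_of_isAffineOpen C U hU
  -- the structure morphism
  let g : Spec Γ(C, U) ⟶ Spec (CommRingCat.of (ZMod p)) := hU.fromSpec ≫ i ≫ π
  let φ : ZMod p →+* Γ(C, U) := (Spec.preimage g).hom
  have hφ : φ.FiniteType := by
    have h1 : Spec.map (CommRingCat.ofHom φ) = g := Spec.map_preimage _
    have h2 : LocallyOfFiniteType (Spec.map (CommRingCat.ofHom φ)) := by
      rw [h1]
      infer_instance
    rw [HasRingHomProperty.Spec_iff (P := @LocallyOfFiniteType)] at h2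
    exact h2
  let ψ : Γ(C, U) →+* X.residueField (i (genericPoint C)) :=
    (e : C.functionField →+* X.residueField (i (genericPoint C))).comp
      (algebraMap Γ(C, U) C.functionField)
  letI alg : Algebra Γ(C, U) (X.residueField (i (genericPoint C))) := ψ.toAlgebra
  have hfr' : IsFractionRing Γ(C, U) (X.residueField (i (genericPoint C))) := by
    let e' : C.functionField ≃ₐ[Γ(C, U)] X.residueField (i (genericPoint C)) :=
      AlgEquiv.ofRingEquiv (f := e) (fun _ => rfl)
    exact IsLocalization.isLocalization_of_algEquiv (nonZeroDivisors Γ(C, U)) e'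
  refine ⟨i (genericPoint C), Γ(C, U), inferInstance, inferInstance, φ.toAlgebra, hφ, alg, hfr',
    ?_, ?_⟩
  · have h1 : closure ({genericPoint C} : Set C) = Set.univ := (genericPoint_spec C)
    have h2 := i.isClosedEmbedding.closure_image_eq {genericPoint C}
    rw [Set.image_singleton, h1, Set.image_univ] at h2
    exact h2.symm
  · intro a ha
    refine ⟨Spec.map (CommRingCat.ofHom (algebraMap Γ(C, U) (Localization.Away a))) ≫
      hU.fromSpec, inferInstance, ?_, ?_⟩
    · rintro _ ⟨x, rfl⟩
      rw [Scheme.Hom.comp_apply]
      apply hUO
      have h1 := hU.range_fromSpec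
      have h2 : hU.fromSpec ((Spec.map (CommRingCat.ofHom
        (algebraMap Γ(C, U) (Localization.Away a)))) x) ∈ Set.range hU.fromSpec := ⟨_, rfl⟩
      rw [h1] at h2
      exact h2
    · haveI : Nontrivial (Localization.Away a) := by
        have hinj : Function.Injective (algebraMap Γ(C, U) (Localization.Away a)) :=
          IsLocalization.injective (Localization.Away a)
            (powers_le_nonZeroDivisors_of_noZeroDivisors ha)
        exact hinj.nontrivial
      haveI : Nonempty (Spec (CommRingCat.of (Localization.Away a))) :=
        inferInstanceAs (Nonempty (PrimeSpectrum (Localization.Away a)))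
      exact Set.range_nonempty _

end Pool.Agent.KSF
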