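import Pool.Agent.KSF.St
import Pool.Agent.KTX.O2

/-!
# KSF, module Z (helper41): the function fields of the sources
-/

set_option autoImplicit false

namespace Pool.Agent.KSF

open CategoryTheory AlgebraicGeometry TopologicalSpace Pool.Agent.KTX Pool.Agent.KTH
  Pool.Agent.KPR

universe u

/-- a closed irreducible set of dimension two in a space of dimension at most two is a component -/
theorem Z_comp {X : Type} [TopologicalSpace X] (hd : topologicalKrullDim X ≤ 2) (z : X)
    (hz : topologicalKrullDim (closure ({z} : Set X)) = 2) (T : Set X) (hT : IsIrreducible T)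
    (hTc : IsClosed T) (hzT : z ∈ T) : T = closure {z} := by
  have h0 : closure {z} ⊆ T := hTc.closure_subset_iff.2 (Set.singleton_subset_iff.2 hzT)
  by_contra hne
  let T' : IrreducibleCloseds X := ⟨T, hT, hTc⟩
  have h1 : ((2 : ℕ) : WithBot ℕ∞) ≤
      Order.krullDim (IrreducibleCloseds (closure ({z} : Set X))) := by
    change _ ≤ topologicalKrullDim (closure ({z} : Set X))
    rw [hz]
    rfl
  obtain ⟨l, hl⟩ := Order.le_krullDim_iff.1 h1
  have hi : Topology.IsInducing (Subtype.val : closure ({z} : Set X) → X) :=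
    Topology.IsInducing.subtypeVal
  let l' : LTSeries (IrreducibleCloseds X) :=
    l.map (IrreducibleCloseds.map Subtype.val hi.continuous)
      (IrreducibleCloseds.map_strictMono_of_isInducing hi)
  have h2 : l'.last < T' := by
    have h3 : (l'.last : Set X) ⊆ closure {z} := by
      change closure (Subtype.val '' (l.last : Set (closure ({z} : Set X)))) ⊆ closure {z}
      rw [isClosed_closure.closure_subset_iff]
      rintro _ ⟨y, -, rfl⟩
      exact y.2
    refine lt_of_le_of_ne (fun y hy => h0 (h3 hy)) fun h4 => hne ?_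
    refine Set.Subset.antisymm ?_ h0
    intro y hy
    refine h3 ?_
    rw [h4]
    exact hy
  have h5 := Order.LTSeries.length_le_krullDim (l'.snoc T' h2)
  have h6 : (l'.snoc T' h2).length = 3 := by
    have : l'.length = 2 := hl
    change l'.length + 0 + 1 = 3
    omega
  rw [h6] at h5
  have h7 : ((3 : ℕ) : WithBot ℕ∞) ≤ 2 := h5.trans hd
  have h8 : ((3 : ℕ) : WithBot ℕ∞) ≤ ((2 : ℕ) : WithBot ℕ∞) := h7
  rw [Nat.cast_le] at h8
  omega

/-- an open neighbourhood contained in the component -/
theorem Z_nbhd {X : Type} [TopologicalSpace X] [NoetherianSpace X]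
    (hd : topologicalKrullDim X ≤ 2) (z : X)
    (hz : topologicalKrullDim (closure ({z} : Set X)) = 2) :
    ∃ V : Set X, IsOpen V ∧ z ∈ V ∧ V ⊆ closure {z} := by
  refine ⟨(⋃₀ (irreducibleComponents X \ {closure {z}}))ᶜ, ?_, ?_, ?_⟩
  · rw [Set.sUnion_eq_biUnion, isOpen_compl_iff]
    exact (NoetherianSpace.finite_irreducibleComponents.subset Set.sdiff_subset).isClosed_biUnion
      fun s hs => isClosed_of_mem_irreducibleComponents s hs.1
  · rintro ⟨T, ⟨hT, hne⟩, hzT⟩
    exact hne (Z_comp hd z hz T hT.1 (isClosed_of_mem_irreducibleComponents T hT) hzT)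
  · intro y hy
    by_contra hy'
    refine hy ⟨irreducibleComponent y, ⟨irreducibleComponent_mem_irreducibleComponents y, ?_⟩,
      mem_irreducibleComponent⟩
    intro h
    rw [Set.mem_singleton_iff] at h
    exact hy' (h ▸ mem_irreducibleComponent)

/-- the reduced closure of a point -/
theorem Z_cl (Z : Scheme.{0}) [IsNoetherian Z] (z : Z) :
    ∃ (C : Scheme.{0}) (i : C ⟶ Z), IsClosedImmersion i ∧ IsIntegral C ∧
      Set.range i = closure {z} := by
  let f := Z.fromSpecResidueField z
  have h1 : QuasiCompact f := inferInstance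
  have h2 : IsReduced (Spec (Z.residueField z)) := inferInstance
  have h3 : IsReduced f.image := O2.red f
  have h4 : Set.range f.imageι = closure {z} := by
    rw [Scheme.IdealSheafData.range_subschemeι, Scheme.Hom.support_ker,
      Scheme.range_fromSpecResidueField]
  have h5 : IrreducibleSpace f.image := by
    have h6 : DenseRange f.toImage := f.toImage.denseRange
    have h7 : IrreducibleSpace (Spec (Z.residueField z)) := inferInstance
    have h8 : IsIrreducible (Set.univ : Set (Spec (Z.residueField z))) :=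
      (irreducibleSpace_def _).1 h7
    have h9 : IsIrreducible (Set.univ : Set f.image) := by
      rw [← h6.closure_range, ← Set.image_univ]
      exact (h8.image _ f.toImage.continuous.continuousOn).closure
    exact (irreducibleSpace_def _).2 h9
  exact ⟨f.image, f.imageι, inferInstance, isIntegral_of_irreducibleSpace_of_isReduced _, h4⟩

theorem thm_Z (hB : St_B.{u}) (hX : St_X) : St_Z.{u} := by
  intro L p _ hH M n Z ρ _ _ hd hG z hz
  have : IsNoetherian (Spec (CommRingCat.of (ZMod p))) := inferInstance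
  have hZ : IsNoetherian Z := Pool.Agent.KIN.h2_noeth ρ
  obtain ⟨V, hV, hzV, hVz⟩ := Z_nbhd hd z hz
  obtain ⟨C, i, _, _, hi⟩ := Z_cl Z z
  let V0 : Z.Opens := ⟨V, hV⟩
  have hz1 : z ∈ Set.range i := by
    rw [hi]
    exact subset_closure rfl
  obtain ⟨η, hη⟩ := hz1
  obtain ⟨x, A, i1, i2, i3, i4, i5, i6, hx, hA⟩ := hX p Z ρ C i (i ⁻¹ᵁ V0)
    ⟨η, by
      change i η ∈ V
      rw [hη]
      exact hzV⟩
  obtain rfl : x = z := by
    rw [hi] at hx
    exact ((inseparable_iff_closure_eq.2 hx).eq).symm
  refine ⟨A, i1, i2, i3, i4, i5, i6, fun b hb => ?_⟩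
  obtain ⟨j, _, hj1, hj2⟩ := hA b hb
  have hinj : Function.Injective i := i.isClosedEmbedding.injective
  have hRo : IsOpen (Set.range j) := j.isOpenEmbedding.isOpen_range
  -- the open subset `V'`
  let V' : Z.Opens := ⟨V \ (i '' (Set.range j)ᶜ),
    hV.sdiff (i.isClosedEmbedding.isClosedMap _ hRo.isClosed_compl)⟩
  have hηj : η ∈ Set.range j := by
    obtain ⟨c, hc⟩ := hj2
    have h1 : i η ⤳ i c := by
      rw [hη, specializes_iff_mem_closure, ← hi]
      exact ⟨c, rfl⟩
    have h2 : η ⤳ c := i.isClosedEmbedding.isInducing.specializes_iff.1 h1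
    exact h2.mem_open hRo hc
  have hzV' : x ∈ V' := by
    refine ⟨hzV, ?_⟩
    rintro ⟨c, hc, hc'⟩
    rw [← hη] at hc'
    exact hc (hinj hc' ▸ hηj)
  have hV'z : (V' : Set Z) ⊆ closure {x} := fun y hy => hVz hy.1
  have hGV : GdG M ((L.th n).T V'.toScheme) := hB L p hH M n Z ρ hd hG x V' hzV' hV'z
  -- the factorization
  have hr : Set.range (j ≫ i) ⊆ Set.range V'.ι := by
    rw [Scheme.Opens.range_ι]
    rintro _ ⟨y, rfl⟩
    rw [Scheme.Hom.comp_apply]
    refine ⟨hj1 ⟨y, rfl⟩, ?_⟩
    rintro ⟨c, hc, hc'⟩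
    exact hc (hinj hc' ▸ ⟨y, rfl⟩)
  let l := IsOpenImmersion.lift V'.ι (j ≫ i) hr
  have hl : l ≫ V'.ι = j ≫ i := IsOpenImmersion.lift_fac _ _ _
  have hs : Function.Surjective l := by
    intro v
    have h1 : V'.ι v ∈ Set.range V'.ι := ⟨v, rfl⟩
    rw [Scheme.Opens.range_ι] at h1
    have h2 : V'.ι v ∈ Set.range i := by
      rw [hi]
      exact hV'z h1
    obtain ⟨c, hc⟩ := h2
    have h3 : c ∈ Set.range j := by
      by_contra h4
      exact h1.2 ⟨c, h4, hc⟩
    obtain ⟨y, hy⟩ := h3
    refine ⟨y, V'.ι.isOpenEmbedding.injective ?_⟩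
    rw [← Scheme.Hom.comp_apply, hl, Scheme.Hom.comp_apply, hy, hc]
  have hli : IsImmersion l := by
    have : IsImmersion (l ≫ V'.ι) := by
      rw [hl]
      infer_instance
    exact IsImmersion.of_comp l V'.ι
  have hlc : IsClosedImmersion l :=
    IsClosedImmersion.of_isPreimmersion l (by rw [hs.range_eq]; exact isClosed_univ)
  have : IsNoetherian V'.toScheme := noeth_open V'.ι
  exact thm_GG.1 M _ _ ((ofSTh (L.th n)).push l)
    ((all_T1 (ofSTh (L.th n))).2.2.1 _ _ l hs).injective hGV

end Pool.Agent.KSF
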