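import Pool.Agent.KSF.B
import Pool.Agent.KSF.C
import Pool.Agent.KSF.E
import Pool.Agent.KSF.X
import Pool.Agent.KSF.Z
import Pool.Agent.KSF.N
import Pool.Agent.KSF.F
import Pool.Agent.KSF.Asm
import Pool.Agent.KQH.HomAll

/-!
# Line S, all clauses, without hypotheses

MP_e17fa799_al (architect helper33).
-/

set_option autoImplicit false

noncomputable section

namespace Pool.Agent.KSF

open CategoryTheory AlgebraicGeometry Pool.Agent.KTX Pool.Agent.KTH Pool.Agent.KPR

theorem all_F : St_F := thm_F thm_C thm_E thm_X (thm_Z thm_B thm_X) thm_N thm_Src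

/-- all clauses of the final statement of line S -/
theorem all_fin : (∀ p n : ℕ, DomN p n) ∧ (∀ p n : ℕ, RingF p n) ∧
    (∀ p n : ℕ, FermF p n) ∧ (∀ p : ℕ, p.Prime → DomFin p) ∧
    (∀ p n : ℕ, p.Prime → SurfN p n) := all_of KQH.all_HOMK all_F

end Pool.Agent.KSF
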