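import Pool.Agent.KSF.St

/-!
# KSF, module B: open subsets of a component
-/

set_option autoImplicit false

namespace Pool.Agent.KSF

open CategoryTheory AlgebraicGeometry TopologicalSpace Pool.Agent.KTX Pool.Agent.KTH
  Pool.Agent.KPR

open Pool.Agent.KIN (h2_noeth)

universe u

/-- the dimension of a closed subset of an irreducible closed subset which misses the generic
point -/
theorem B_dim {W Z : Type} [TopologicalSpace W] [TopologicalSpace Z] (i : W → Z)
    (hi : Topology.IsClosedEmbedding i) (z : Z) (h1 : Set.range i ⊆ closure {z})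
    (h2 : z ∉ Set.range i) (h : topologicalKrullDim Z ≤ 2) : topologicalKrullDim W ≤ 1 := by
  refine iSup_le fun s => ?_
  -- the chain in Z
  let F : IrreducibleCloseds W → IrreducibleCloseds Z := fun T =>
    ⟨i '' T, T.isIrreducible'.image i hi.continuous.continuousOn, hi.isClosedMap _ T.isClosed'⟩
  have hF : StrictMono F := by
    intro T T' hT
    have h3 : (T : Set W) ⊂ (T' : Set W) := hT
    have h4 : i '' T ⊂ i '' T' := hi.injective.image_strictMono h3
    exact h4
  let s' : LTSeries (IrreducibleCloseds Z) := s.map F hF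
  let C : IrreducibleCloseds Z := ⟨closure {z}, isIrreducible_singleton.closure, isClosed_closure⟩
  have hlast : s'.last < C := by
    have h5 : ((s'.last : IrreducibleCloseds Z) : Set Z) ⊆ Set.range i := by
      change ((F s.last : IrreducibleCloseds Z) : Set Z) ⊆ Set.range i
      exact Set.image_subset_range _ _
    refine lt_of_le_of_ne ?_ ?_
    · exact h5.trans h1
    · intro he
      apply h2
      apply h5
      rw [he]
      exact subset_closure rfl
  let s'' : LTSeries (IrreducibleCloseds Z) := s'.snoc C hlast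
  have h6 : ((s''.length : ℕ) : WithBot ℕ∞) ≤ 2 := (le_iSup (fun q : LTSeries (IrreducibleCloseds Z) => (q.length : WithBot ℕ∞)) s'').trans h
  have h7 : s''.length = s.length + 1 := rfl
  rw [h7] at h6
  have h8 : s.length + 1 ≤ 2 := by exact_mod_cast h6
  have h9 : s.length ≤ 1 := by omega
  exact_mod_cast h9

/-- an open immersion with closed range is a closed immersion -/
theorem B_closed {X Y : Scheme.{0}} (f : X ⟶ Y) [IsOpenImmersion f] (h : IsClosed (Set.range f)) :
    IsClosedImmersion f where
  isClosedEmbedding := ⟨f.isOpenEmbedding.isEmbedding, h⟩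

theorem thm_B : St_B.{u} := by
  intro L p _ hH M n Z ρ _ _ hdim hM z V hzV hV
  have : IsNoetherian (Spec (CommRingCat.of (ZMod p))) := inferInstance
  have hZ : IsNoetherian Z := h2_noeth ρ
  obtain ⟨g1, g2, g3, g4, g5, g6⟩ := thm_GG.{u}
  obtain ⟨m, rfl⟩ : ∃ m : ℤ, n = m + 1 := ⟨n - 1, by ring⟩
  let C0 : Closeds Z := ⟨closure {z} ∩ (V : Set Z)ᶜ, isClosed_closure.inter V.isOpen.isClosed_compl⟩
  let O : Z.Opens := ⟨(C0 : Set Z)ᶜ, C0.isClosed.isOpen_compl⟩
  let I : Z.IdealSheafData := Scheme.IdealSheafData.vanishingIdeal C0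
  let i : I.subscheme ⟶ Z := I.subschemeι
  have hi : Set.range i = (C0 : Set Z) := by
    change Set.range I.subschemeι = _
    rw [Scheme.IdealSheafData.range_subschemeι, Scheme.IdealSheafData.coe_support_vanishingIdeal]
  have hij : Set.range i = (Set.range O.ι)ᶜ := by
    rw [hi, Scheme.Opens.range_ι]
    exact (compl_compl _).symm
  have hW : topologicalKrullDim I.subscheme ≤ 1 := by
    refine B_dim i i.isClosedEmbedding z ?_ ?_ hdim
    · rw [hi]
      exact Set.inter_subset_left
    · rw [hi]
      exact fun h => h.2 hzV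
  have hfg : AddGroup.FG ((L.th m).T I.subscheme) := hH I.subscheme (i ≫ ρ) hW m
  have hO : GdG M ((L.th (m + 1)).T O.toScheme) := by
    refine g3 M _ _ _ ((L.th (m + 1)).pull O.ι) (L.bd m i O.ι) (fun x hx => ?_) hM ?_
    · exact L.exU m i O.ι hij x hx
    · exact ⟨⊤, AddGroup.fg_def.1 hfg, 0, fun x => AddSubgroup.mem_top _⟩
  -- V is open and closed in O
  have hVO : V ≤ O := by
    intro x hx h
    exact h.2 hx
  have hOn : IsNoetherian O.toScheme := noeth_open O.ι
  let j : V.toScheme ⟶ O.toScheme := Z.homOfLE hVO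
  have hr : Set.range j = O.ι ⁻¹' (closure {z}) := by
    have h1 : Set.range j = O.ι ⁻¹' (V : Set Z) := by
      ext x
      constructor
      · rintro ⟨y, rfl⟩
        change O.ι (Z.homOfLE hVO y) ∈ (V : Set Z)
        rw [← Scheme.Hom.comp_apply, Scheme.homOfLE_ι]
        have h2 : V.ι y ∈ Set.range V.ι := ⟨y, rfl⟩
        rw [Scheme.Opens.range_ι] at h2
        exact h2
      · intro hx
        have h2 : O.ι x ∈ Set.range V.ι := by
          rw [Scheme.Opens.range_ι]
          exact hx
        obtain ⟨y, hy⟩ := h2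
        refine ⟨y, ?_⟩
        apply O.ι.isOpenEmbedding.injective
        change O.ι (Z.homOfLE hVO y) = _
        rw [← Scheme.Hom.comp_apply, Scheme.homOfLE_ι]
        exact hy
    rw [h1]
    ext x
    constructor
    · intro hx
      exact hV hx
    · intro hx
      by_contra h2
      have h3 : O.ι x ∈ Set.range O.ι := ⟨x, rfl⟩
      rw [Scheme.Opens.range_ι] at h3
      exact h3 ⟨hx, h2⟩
  have hcl : IsClosed (Set.range j) := by
    rw [hr]
    exact isClosed_closure.preimage O.ι.continuous
  have hjo : IsOpenImmersion j := inferInstance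
  have hjc : IsClosedImmersion j := B_closed j hcl
  obtain ⟨t1, t2, t3, t4, t5, t6⟩ := all_T1 (ofSTh (L.th (m + 1)))
  exact g1 M _ _ ((ofSTh (L.th (m + 1))).push j) (t6 _ _ j) hO

end Pool.Agent.KSF
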