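import Pool.Agent.KTH.SrcN

/-!
# KSF: `K'_n` of surfaces over finite fields: definitions

MP_e17fa799_al (architect helper33).
-/

set_option autoImplicit false

namespace Pool.Agent.KSF

open CategoryTheory AlgebraicGeometry Pool.Agent.KPR Pool.Agent.KTH

/-- the degree of an extension of fields (`0` if it is infinite) -/
noncomputable def dg {K F : Type} [Field K] [Field F] (φ : K →+* F) : ℕ :=
  @Module.finrank K F _ _ φ.toAlgebra.toModule

/-- the dimension of the closure of a point -/
noncomputable def cdim {X : Scheme.{0}} (x : X) : WithBot ℕ∞ :=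
  topologicalKrullDim (closure ({x} : Set X))

/-- The function field of the surface `closure {z}`, `z ∈ Z`, where `Z` is a source of dimension at
most two and of finite type over `ℤ`. -/
def SrcPt (p n : ℕ) (Z : Scheme.{0}) (z : Z) : Prop :=
  IsSourceN p n Z ∧ FTZ Z ∧ topologicalKrullDim Z ≤ 2 ∧ cdim z = 2

/-- Surfaces: let `X` be a scheme of finite type over `𝔽_p` of dimension at most two, such that for every
`x ∈ X` whose closure has dimension two, the greatest common divisor of the degrees of the extensions
`κ(x) → κ(z)`, where `κ(z)` is the function field of a two-dimensional irreducible component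
`closure {z}` of a source `Z` of dimension two, divides `N`. Then `(p N) ^ e K'_n(X)` is contained in a
finitely generated subgroup, for some `e`. -/
def SurfN (p n : ℕ) : Prop :=
  ∀ (X : Scheme.{0}) (_ : X ⟶ Spec (CommRingCat.of (ZMod p))), FTZ X →
    topologicalKrullDim X ≤ 2 → ∀ N : ℕ,
  (∀ x : X, cdim x = 2 → ∀ d : ℕ, (∀ (Z : Scheme.{0}) (z : Z), SrcPt p n Z z →
    ∀ φ : X.residueField x →+* Z.residueField z, d ∣ dg φ) → d ∣ N) → GdG (p * N) (KX n X)

end Pool.Agent.KSF
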