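import Pool.Agent.KSF.St

/-!
# KSF, module Src: the groups of the sources
-/

set_option autoImplicit false

namespace Pool.Agent.KSF

open CategoryTheory AlgebraicGeometry Pool.Agent.KTX Pool.Agent.KTH Pool.Agent.KPR

theorem thm_Src : St_Src := by
  intro T n ε hD p Z hZ
  obtain ⟨m, q, t, k, i1, hk, Y, i2, π, S, hS, hY, c, i3, i4⟩ := hZ
  refine ⟨hk.hp, ?_, ?_⟩
  · have : IsOpenImmersion c := i3
    have : LocallyOfFiniteType (Limits.terminal.from S) := hS.1
    have : QuasiCompact (Limits.terminal.from S) := hS.2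
    have : IsNoetherian (px Y S) := (thm_R1 S).2.2.2.2.2 Y inferInstance hS.1 hS.2
    exact thm_GG.1 p _ _ (T.push c) ((all_T1 T).2.2.2.2.2 Z (px Y S) c)
      (srcN_good hD hk T ε S hS Y π hY)
  · have := hk.charP
    exact ⟨c ≫ pfst Y S ≫ π ≫ Spec.map (CommRingCat.ofHom (ZMod.castHom (dvd_refl p) k))⟩

end Pool.Agent.KSF
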