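import Pool.Agent.KSF.Defs
import Pool.Agent.KTH.HThy
import Pool.Agent.GQ.FSch

/-!
# KSF: `K'_n` of surfaces over finite fields: statements of the modules

MP_e17fa799_al (architect helper33). Every `def St_X : Prop` is one module
`Pool/Agent/KSF/X.lean` with `theorem thm_X (h.. : St_..) : St_X` in the namespace `Pool.Agent.KSF`;
the hypotheses may be any of the statements listed after `needs`.

Let `L` be the graded theory `K'_*` (`LThy`), `GdG M A`: `M ^ e A` is contained in a finitely generated
subgroup for some `e`.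
-/

set_option autoImplicit false

namespace Pool.Agent.KSF

open CategoryTheory AlgebraicGeometry TopologicalSpace Pool.Agent.KTX Pool.Agent.KTH
  Pool.Agent.KPR

universe u

/-- the groups of the schemes of dimension at most one over `𝔽_p` are finitely generated -/
def H1 (L : LThy.{u}) (p : ℕ) : Prop := ∀ (X : Scheme.{0})
  (f : X ⟶ Spec (CommRingCat.of (ZMod p))) [LocallyOfFiniteType f] [QuasiCompact f],
  topologicalKrullDim X ≤ 1 → ∀ n : ℤ, AddGroup.FG ((L.th n).T X)

/-- **B** (1 h). Open subsets of a component. `W`: the reduced closed subscheme of `Z` with range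
`closure {z} \ V` (closed; `IdealSheafData.vanishingIdeal`, `subschemeι`, see `GQ/FSch.lean`). Its
dimension is at most one: a chain of irreducible closed subsets of `W` can be extended by
`closure {z}`, which is not contained in `W` (`z ∉ W`), in `Z`; so
`topologicalKrullDim W + 1 ≤ topologicalKrullDim Z ≤ 2` (or `W` is empty). Let `O` be the complement of
`W`: `T_n(Z) → T_n(O) → T_(n-1)(W)` is exact (`L.exU (n - 1)`), and `T_(n-1)(W)` is finitely generated
(`H1`), so `T_n(O)` is good (`thm_GG` (3)). `V` is open in `O`, and closed as `V = O ∩ closure {z}`: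
`V ⟶ O` is an open and closed immersion (a closed immersion because it is an open immersion with closed
range; or a closed immersion by `IsClosedImmersion` of an immersion with closed range), so the
push-forward `T_n(V) → T_n(O)` is injective (`all_T1` (6) for `ofSTh (L.th n)`). needs: nothing -/
def St_B : Prop := ∀ (L : LThy.{u}) (p : ℕ) [Fact p.Prime], H1 L p → ∀ (M : ℕ) (n : ℤ)
  (Z : Scheme.{0}) (ρ : Z ⟶ Spec (CommRingCat.of (ZMod p))) [LocallyOfFiniteType ρ]
  [QuasiCompact ρ], topologicalKrullDim Z ≤ 2 → GdG M ((L.th n).T Z) →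
  ∀ (z : Z) (V : Z.Opens), z ∈ V → (V : Set Z) ⊆ closure {z} → GdG M ((L.th n).T V.toScheme)

/-- **C** (2 h). Extensions of function fields. `φ : K → F` has finite degree `d ≠ 0`. Let
`B = 𝔽_p[β_1, …, β_r]`, `A = 𝔽_p[α_1, …, α_s]` (images in `F`, `K`). (1) `φ(α_i) = u_i / b₀` with
`u_i, b₀ ∈ B`, `b₀ ≠ 0`, so `φ(A) ⊆ B₁ = B[1 / b₀] ⊆ F`, of finite type over `A`. (2) The generators of
`B₁` are algebraic over `K`, so integral over `A[1 / a₁]` for some `a₁ ≠ 0`, and `B₂ = B₁[1 / φ(a₁)]` is a
finite `A[1 / a₁]`-module, and `F = B₂ ⊗_A K` (a domain which is finite over a field is a field). (3) A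
finite module over a domain becomes free over `A[1 / a]`, `a₁ ∣ a`, of rank
`dim_K (B₂ ⊗_A K) = [F : K] = d` (take elements of `B₂` which are a `K`-basis of `F`; they are linearly
independent over `A`; the generators of `B₂` are combinations with denominators). (4) For a multiple
`a'` of `a`: localise; `B₂[1 / φ(a')]` is the localisation of `B` away from
`b = b₀ * (numerator of φ(a'))` (with `φ(a') = u / b₀ ^ l`, `b = b₀ * u`). It may be easier to take
the given `a'` at the beginning and to work with subalgebras of `F` (`Subalgebra`, `IsLocalization`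
inside a field). needs: nothing -/
def St_C : Prop := ∀ (p : ℕ) [Fact p.Prime] (A B : Type) [CommRing A] [IsDomain A]
  [Algebra (ZMod p) A] [Algebra.FiniteType (ZMod p) A] [CommRing B] [IsDomain B]
  [Algebra (ZMod p) B] [Algebra.FiniteType (ZMod p) B] (K F : Type) [Field K] [Field F]
  [Algebra A K] [IsFractionRing A K] [Algebra B F] [IsFractionRing B F] (φ : K →+* F),
  dg φ ≠ 0 → ∃ a : A, a ≠ 0 ∧ ∀ a' : A, a' ≠ 0 → a ∣ a' →
    ∃ (b : B) (_ : Algebra (Localization.Away a') (Localization.Away b)), b ≠ 0 ∧
      Nonempty (Module.Basis (Fin (dg φ)) (Localization.Away a') (Localization.Away b))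

/-- **E** (45 min). Free algebras with degrees of greatest common divisor dividing `N`.
`push (pull x) = d_j x` (`Thy.free` for `X = Spec A`, `h = 𝟙`, `g = 𝟙`, `IsPullback.of_vert_isIso` or
`IsPullback.id_horiz`), so `N x = ∑ c_j d_j x` is in the sum of the images of the `push`
(Bezout: `N` is a multiple of the gcd of the `d_j`; see `KTH/C1.lean`), then `thm_GG` (4) with the
number `M`, `N ∣ M`. `Flat` and `IsFinite` of `Spec (B_j) ⟶ Spec A` from `Module.Free`,
`Module.Finite` (`Module.Finite.of_basis`). needs: nothing -/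
def St_E : Prop := ∀ (T : Thy.{u}) (M N : ℕ), N ∣ M → ∀ (A : Type) [CommRing A]
  [IsNoetherianRing A] (J : Type) [Finite J] (B : J → Type) [∀ j, CommRing (B j)]
  [∀ j, Algebra A (B j)] (d : J → ℕ), (∀ j, Nonempty (Module.Basis (Fin (d j)) A (B j))) →
  (∀ c : ℕ, (∀ j, c ∣ d j) → c ∣ N) →
  (∀ j, GdG M (T.T (Spec (CommRingCat.of (B j))))) → GdG M (T.T (Spec (CommRingCat.of A)))

/-- **X** (1.5 h). Affine models. `C` is integral, `η` its generic point, `x = i η`: the range of `i` is
closed, irreducible, with the generic point `x`. Let `U ⊆ O` be a nonempty affine open subset of `C`,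
`A = Γ(C, U)`: a domain, of finite type over `ZMod p` (`LocallyOfFiniteType` of
`Spec A ≅ U ⟶ C ⟶ X ⟶ Spec (ZMod p)`, as at the end of `GQ/FSch.lean`), and the fraction field of `A` is
the function field `C.functionField = ` residue field of `C` at `η` (`functionField_isFractionRing_of_isAffineOpen`;
the stalk at `η` is a field, so the residue map is bijective), and the residue fields of `X` at `x` and
of `C` at `η` are isomorphic (`i` is a closed immersion: `Hom.residueFieldMap` is surjective). The
algebra structure of the residue field is the one transported by these isomorphisms. The open immersion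
`j` is `Spec A[1 / a] ⟶ Spec A ≅ U ⟶ C`; its range is not empty as `A[1 / a]` is not the zero ring.
needs: nothing -/
def St_X : Prop := ∀ (p : ℕ) [Fact p.Prime] (X : Scheme.{0})
  (π : X ⟶ Spec (CommRingCat.of (ZMod p))) [LocallyOfFiniteType π] (C : Scheme.{0}) (i : C ⟶ X)
  [IsClosedImmersion i] [IsIntegral C] (O : C.Opens), (O : Set C).Nonempty →
  ∃ (x : X) (A : Type) (_ : CommRing A) (_ : IsDomain A) (_ : Algebra (ZMod p) A)
    (_ : Algebra.FiniteType (ZMod p) A) (_ : Algebra A (X.residueField x))
    (_ : IsFractionRing A (X.residueField x)), Set.range i = closure {x} ∧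
    ∀ a : A, a ≠ 0 → ∃ j : Spec (CommRingCat.of (Localization.Away a)) ⟶ C,
      IsOpenImmersion j ∧ Set.range j ⊆ O ∧ (Set.range j).Nonempty

/-- **Z** (1.5 h). The function fields of the sources. `closure {z}` is an irreducible component of the
noetherian scheme `Z` (a strictly larger irreducible closed subset would have dimension at least
three), so `V = ` complement of the union of the other components is an open neighbourhood of `z`,
contained in `closure {z}`. Let `i : C ⟶ Z` be the reduced closed subscheme with range `closure {z}`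
(`vanishingIdeal`; integral: reduced and irreducible). `St_X` for `O = i ⁻¹ᵁ V`; the point `x` is
`z` (`closure {x} = closure {z}`, `T0`), so the ring `A` is the ring `B` we want. Let `b ≠ 0`,
`j : Spec B[1/b] ⟶ C` as in `St_X`. The set `V' = V \ i (C \ range j)` is open in `Z` (`i` is closed),
`z ∈ V'`, `V' ⊆ closure {z}`: `T_n(V')` is good by `St_B`. The morphism `j ≫ i` factors over `V'`
(`IsOpenImmersion.lift` or `Scheme.Hom` restriction) as a surjective closed immersion
`Spec B[1/b] ⟶ V'` (it is an isomorphism to the closed subscheme `i ⁻¹ᵁ V'` of `V'`), so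
`T_n(Spec B[1/b]) ≅ T_n(V')` (`all_T1` (3) for `ofSTh (L.th n)`). needs: B, X -/
def St_Z : Prop := ∀ (L : LThy.{u}) (p : ℕ) [Fact p.Prime], H1 L p → ∀ (M : ℕ) (n : ℤ)
  (Z : Scheme.{0}) (ρ : Z ⟶ Spec (CommRingCat.of (ZMod p))) [LocallyOfFiniteType ρ]
  [QuasiCompact ρ], topologicalKrullDim Z ≤ 2 → GdG M ((L.th n).T Z) → ∀ z : Z, cdim z = 2 →
  ∃ (B : Type) (_ : CommRing B) (_ : IsDomain B) (_ : Algebra (ZMod p) B)
    (_ : Algebra.FiniteType (ZMod p) B) (_ : Algebra B (Z.residueField z))
    (_ : IsFractionRing B (Z.residueField z)),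
    ∀ b : B, b ≠ 0 → GdG M ((L.th n).T (Spec (CommRingCat.of (Localization.Away b))))

/-- **N** (1.5 h). Noetherian induction. As `sch_ind` in `GQ/FSch.lean`, for the closed subschemes
`i : Z ⟶ X` by induction over the closed set `range i`. If `Z` is empty: the first hypothesis. Otherwise
let `z` be the generic point of an irreducible component of `Z`, `U` the complement of the union of the
other components (open, irreducible, `U ⊆ closure {z}`), `c : C ⟶ Z` the reduced closed subscheme with
range `closure {z}` (integral), `O = c ⁻¹ᵁ U`. The last hypothesis for `c ≫ i` gives `j : V ⟶ C` open,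
`range j ⊆ O`, `P V`. The set `W = U \ c (C \ range j)` is open in `Z`, nonempty, and `V ⟶ W` is a
surjective closed immersion (as in `St_Z`), so `P W`. Its complement (with the reduced structure) has the
property `P` by induction; glue. needs: nothing -/
def St_N : Prop := ∀ (X : Scheme.{0}) [IsNoetherian X] (P : Scheme.{0} → Prop),
  (∀ Z : Scheme.{0}, IsEmpty Z → P Z) →
  (∀ (Z' Z : Scheme.{0}) [IsNoetherian Z] (i : Z' ⟶ Z) [IsClosedImmersion i],
    Function.Surjective i → P Z' → P Z) →
  (∀ (Z' Z W : Scheme.{0}) [IsNoetherian Z] (i : Z' ⟶ Z) (j : W ⟶ Z) [IsClosedImmersion i]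
    [IsOpenImmersion j], Set.range i = (Set.range j)ᶜ → P Z' → P W → P Z) →
  (∀ (C : Scheme.{0}) (i : C ⟶ X) [IsClosedImmersion i] [IsIntegral C] (O : C.Opens),
    (O : Set C).Nonempty → ∃ (V : Scheme.{0}) (j : V ⟶ C), IsOpenImmersion j ∧
      Set.range j ⊆ O ∧ (Set.range j).Nonempty ∧ P V) → P X

/-- **F** (2 h). The theorem. `H1 L p` from `hD`, `ε` and `h0` (`ofSTh`; the groups in negative degrees
are zero; `AddGroup.FG` along an isomorphism). `N = 0`: trivial (`GdG 0`, `e = 1`, the trivial
subgroup). `N ≠ 0`: put `M = p * N`, `P W := IsNoetherian W → GdG M ((L.th n).T W)` in `St_N` (`all_T1`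
for `ofSTh (L.th n)` gives the first three hypotheses, see `scls_thy` in `KTH/FinN.lean`). For the last
one: `C`, `O`. If `topologicalKrullDim C ≤ 1`: take `V = O`; its group is finitely generated (`H1`). Otherwise
`St_X` gives `x`, `A` with `cdim x = topologicalKrullDim C = 2` (`i` is a homeomorphism to its range,
`topologicalKrullDim C ≤ topologicalKrullDim X ≤ 2`). By the hypothesis on `x` and since `N ≠ 0` there are
finitely many triples `(Z_j, z_j, φ_j)` as in `SurfN` with `dg φ_j ≠ 0` such that every common divisor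
of the `dg φ_j` divides `N` (the ideal of `ℤ` generated by the degrees is principal, generated by
finitely many of them; the degrees `0` can be omitted). `T_n(Z_j)` is `GdG p` (`source_good` below is
proved in `KSF/Src.lean`), so `GdG M`. `Z_j` is of finite type over `𝔽_p`: `Z_j ⟶ Spec (ZMod p)` exists as
`Z_j` is open and closed in `Y × S`, `Y` over the field `k`; it is locally of finite type and
quasi-compact because of `FTZ Z_j` (see `base_good` in `KTH/FinN.lean`). `St_Z` gives the rings `B_j`;
`St_C` gives `a_j ∈ A`; `a = ∏ a_j`, `b_j`, and bases of `B_j[1/b_j]` over `A[1/a]`. By `St_E`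
`T_n(Spec A[1/a])` is `GdG M`. The open immersion `j : Spec A[1/a] ⟶ C` of `St_X` is as required.
Finally `ε n X`. needs: C, E, X, Z, N, Src -/
def St_F : Prop := ∀ (L : LThy.{1}) (ε : ∀ (n : ℕ) (X : Scheme.{0}), (L.th n).T X ≃+ KX n X)
  (_ : ∀ (n : ℕ) (X : Scheme.{0}) (x : (L.th (Int.negSucc n)).T X), x = 0) (_ : HDim1) (p n : ℕ),
  p.Prime → SurfN p n

/-- **Src** (proved by the architect). The groups of the sources; the sources are over `𝔽_p`. -/
def St_Src : Prop := ∀ (T : Thy.{1}) (n : ℕ) (_ : ∀ X : Scheme.{0}, T.T X ≃+ KX n X), HDim1 →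
  ∀ (p : ℕ) (Z : Scheme.{0}), IsSourceN p n Z → p.Prime ∧ GdG p (T.T Z) ∧
    Nonempty (Z ⟶ Spec (CommRingCat.of (ZMod p)))

end Pool.Agent.KSF
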